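import Pool.Agent.helper29.NS.SpecD

/-! Module ns:AC (helper98): the vorticity of the difference is constant on the boundary near a
chart point. -/

namespace NS

open MeasureTheory Filter Topology Set

theorem AC_lin (L : ℝ × ℝ × ℝ →L[ℝ] ℝ) (u v : ℝ) :
    L (0, (u, v)) = u * L (0, 1, 0) + v * L (0, 0, 1) := by
  have e : ((0, (u, v)) : ℝ × ℝ × ℝ) = u • ((0, 1, 0) : ℝ × ℝ × ℝ) + v • ((0, 0, 1) : ℝ × ℝ × ℝ) := by
    simp
  rw [e, map_add, map_smul, map_smul, smul_eq_mul, smul_eq_mul]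

theorem AC_Dsc (c : ℝ × ℝ) (ε : ℝ) (hε : 0 < ε) : Dsc c ε ⊆ Metric.ball c ε := by
  intro q hq
  have hq' : (q.1 - c.1) ^ 2 + (q.2 - c.2) ^ 2 < ε ^ 2 := hq
  rw [Metric.mem_ball, Prod.dist_eq, Real.dist_eq, Real.dist_eq]
  refine max_lt ?_ ?_
  · exact abs_lt_of_sq_lt_sq (by nlinarith [sq_nonneg (q.2 - c.2)]) hε.le
  · exact abs_lt_of_sq_lt_sq (by nlinarith [sq_nonneg (q.1 - c.1)]) hε.le

/-- **AC.** -/
theorem AC (hNC : NC_stmt) (hCH : CH_stmt) : AC_stmt := by
  intro Ω ν a b m n c θ δ f hO hν hDM hch hf2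
  obtain ⟨η, hη, ⟨V, hV, hVf⟩, hVc⟩ := hCH Ω c θ δ f hO hch hf2
  have nc := hNC Ω ν a b m n hO hν hDM
  have hvC : ContDiff ℝ 1 (vort a b) := by
    have e1 : ContDiff ℝ 1 (dx b) := by
      unfold dx
      exact ((hDM.cb.of_le (by norm_num : (2 : WithTop ℕ∞) ≤ 3)).fderiv_right (m := 1)
        (by norm_num)).clm_apply contDiff_const
    have e2 : ContDiff ℝ 1 (dy a) := by
      unfold dy
      exact ((hDM.ca.of_le (by norm_num : (2 : WithTop ℕ∞) ≤ 3)).fderiv_right (m := 1)
        (by norm_num)).clm_apply contDiff_const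
    unfold vort
    exact e1.sub e2
  have hder : ∀ t s : ℝ, HasDerivAt (fun s : ℝ => vort a b (t, pt θ c s (f s)))
      ((Real.cos θ - deriv f s * Real.sin θ) * dx (vort a b) (t, pt θ c s (f s))
        + (Real.sin θ + deriv f s * Real.cos θ) * dy (vort a b) (t, pt θ c s (f s))) s := by
    intro t s
    have hfs : HasDerivAt f (deriv f s) s :=
      (hch.smooth.differentiable (by norm_num) s).hasDerivAt
    have h1 : HasDerivAt (fun s : ℝ => c.1 + s * Real.cos θ - f s * Real.sin θ)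
        (Real.cos θ - deriv f s * Real.sin θ) s := by
      have := (((hasDerivAt_id s).mul_const (Real.cos θ)).const_add c.1).sub
        (hfs.mul_const (Real.sin θ))
      exact this.congr_deriv (by ring)
    have h2 : HasDerivAt (fun s : ℝ => c.2 + s * Real.sin θ + f s * Real.cos θ)
        (Real.sin θ + deriv f s * Real.cos θ) s := by
      have := (((hasDerivAt_id s).mul_const (Real.sin θ)).const_add c.2).add
        (hfs.mul_const (Real.cos θ))
      exact this.congr_deriv (by ring)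
    have h3 : HasDerivAt (fun s : ℝ => ((t, pt θ c s (f s)) : ℝ × ℝ × ℝ))
        (0, (Real.cos θ - deriv f s * Real.sin θ, Real.sin θ + deriv f s * Real.cos θ)) s :=
      (hasDerivAt_const s t).prodMk (h1.prodMk h2)
    have h4 : HasFDerivAt (vort a b) (fderiv ℝ (vort a b) (t, pt θ c s (f s)))
        (t, pt θ c s (f s)) := (hvC.differentiable (by norm_num) _).hasFDerivAt
    have h5 := h4.comp_hasDerivAt s h3
    rw [AC_lin] at h5
    exact h5
  have hzero : ∀ t s : ℝ, |s| < η →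
      HasDerivAt (fun s : ℝ => vort a b (t, pt θ c s (f s))) 0 s := by
    intro t s hs
    have h1 := hder t s
    have h2 := nc t (pt θ c s (f s)) (hVc s hs).1
    rw [h2.1, h2.2.1, mul_zero, mul_zero, add_zero] at h1
    exact h1
  obtain ⟨ε, hε, hball⟩ := Metric.mem_nhds_iff.1 hV
  refine ⟨ε, hε, ?_⟩
  rintro t q ⟨hqf, hqd⟩
  obtain ⟨s, hs, rfl⟩ := hVf q ⟨hqf, hball (AC_Dsc c ε hε hqd)⟩
  have hI : IsOpen (Ioo (-η) η) := isOpen_Ioo
  have key := hI.is_const_of_deriv_eq_zero isPreconnected_Ioo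
    (f := fun s : ℝ => vort a b (t, pt θ c s (f s)))
    (fun u hu => (hzero t u (abs_lt.2 hu)).differentiableAt.differentiableWithinAt)
    (fun u hu => (hzero t u (abs_lt.2 hu)).deriv) (abs_lt.1 hs)
    (show (0 : ℝ) ∈ Ioo (-η) η from ⟨by linarith, hη⟩)
  have e0 : pt θ c 0 (f 0) = c := by
    simp [pt, hch.f0]
  simp only [e0] at key
  exact key

end NS
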