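import Pool.Agent.helper29.NS.SpecC

/-! Module ns:CN (helper98): the boundary vorticity of the difference. -/

namespace NS

open MeasureTheory Filter Topology Set

theorem CN_heat {ν K a b m n da1 da2 db1 db2 m1 m2 n1 n2 ta tb la lb : ℝ}
    (h1 : ta + m * da1 + n * da2 + a * m1 + b * m2 = ν * la)
    (h2 : tb + m * db1 + n * db2 + a * n1 + b * n2 = ν * lb)
    (k1 : |m| ≤ K) (k2 : |n| ≤ K) (k3 : |m1| ≤ K) (k4 : |m2| ≤ K) (k5 : |n1| ≤ K)
    (k6 : |n2| ≤ K) :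
    |ta - ν * la| + |tb - ν * lb| ≤ 2 * K * (|a| + |b| + |da1| + |da2| + |db1| + |db2|) := by
  have hK0 : 0 ≤ K := le_trans (abs_nonneg _) k1
  have e1 : ta - ν * la = -(m * da1 + n * da2 + a * m1 + b * m2) := by linarith
  have e2 : tb - ν * lb = -(m * db1 + n * db2 + a * n1 + b * n2) := by linarith
  rw [e1, e2, abs_neg, abs_neg]
  have p1 : ∀ x y z w : ℝ, |x + y + z + w| ≤ |x| + |y| + |z| + |w| := fun x y z w => by
    have := abs_add_le (x + y + z) w
    have := abs_add_le (x + y) z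
    have := abs_add_le x y
    linarith
  have q1 := p1 (m * da1) (n * da2) (a * m1) (b * m2)
  have q2 := p1 (m * db1) (n * db2) (a * n1) (b * n2)
  simp only [abs_mul] at q1 q2
  have r1 := mul_le_mul_of_nonneg_right k1 (abs_nonneg da1)
  have r2 := mul_le_mul_of_nonneg_right k2 (abs_nonneg da2)
  have r3 := mul_le_mul_of_nonneg_left k3 (abs_nonneg a)
  have r4 := mul_le_mul_of_nonneg_left k4 (abs_nonneg b)
  have r5 := mul_le_mul_of_nonneg_right k1 (abs_nonneg db1)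
  have r6 := mul_le_mul_of_nonneg_right k2 (abs_nonneg db2)
  have r7 := mul_le_mul_of_nonneg_left k5 (abs_nonneg a)
  have r8 := mul_le_mul_of_nonneg_left k6 (abs_nonneg b)
  have s1 := mul_nonneg hK0 (abs_nonneg da1)
  have s2 := mul_nonneg hK0 (abs_nonneg da2)
  have s3 := mul_nonneg hK0 (abs_nonneg db1)
  have s4 := mul_nonneg hK0 (abs_nonneg db2)
  nlinarith

/-- **CN.** -/
theorem CN (hKR : KR_stmt) (hKF : KF_stmt) (hKC : KC_stmt) (hKG : KG_stmt) (hKB : KB_stmt)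
    (hYI : YI_stmt) (hNC : NC_stmt) : CN_stmt := by
  intro Ω ν R t1 G a1 b1 a2 b2 a b m n h
  have hDM := h.dmm
  have hR : 0 < R := h.oc.pos
  have hfr : ∀ q ∈ Circ R, q ∈ frontier Ω := fun q hq => ((hKF Ω R h.op h.oc).2 q hq).1
  have nc := hNC Ω ν a b m n h.op h.nu.ne' hDM
  have hvC : ContDiff ℝ 1 (vort a b) := by
    have e1 : ContDiff ℝ 1 (dx b) := by
      unfold dx
      exact ((hDM.cb.of_le (by norm_num : (2 : WithTop ℕ∞) ≤ 3)).fderiv_right (m := 1)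
        (by norm_num)).clm_apply contDiff_const
    have e2 : ContDiff ℝ 1 (dy a) := by
      unfold dy
      exact ((hDM.ca.of_le (by norm_num : (2 : WithTop ℕ∞) ≤ 3)).fderiv_right (m := 1)
        (by norm_num)).clm_apply contDiff_const
    unfold vort
    exact e1.sub e2
  have hconst : ∀ t, ∀ q ∈ Circ R, vort a b (t, q) = vort a b (t, (R, 0)) := fun t =>
    hKC R t (vort a b) hR hvC fun q hq => ⟨(nc t q (hfr q hq)).1, (nc t q (hfr q hq)).2.1⟩
  refine ⟨hconst, ?_⟩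
  intro α β hαβ hβ
  by_contra hcon
  push Not at hcon
  have hgrad : ∀ t ∈ Ioo α β, ∀ q ∈ Circ R,
      dx a (t, q) = 0 ∧ dy a (t, q) = 0 ∧ dx b (t, q) = 0 ∧ dy b (t, q) = 0 := by
    intro t ht q hq
    have hv0 : vort a b (t, q) = 0 := (hconst t q hq).trans (hcon t ht)
    have hg := hKG R t a b hR (hDM.ca.of_le (by norm_num)) (hDM.cb.of_le (by norm_num))
      (fun q hq => ⟨(hDM.bc t q (hfr q hq)).1, (hDM.bc t q (hfr q hq)).2.1⟩)
      (fun q hq => (nc t q (hfr q hq)).2.2.2.2.1) q hq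
    rw [hv0] at hg
    have hR2 : R ^ 2 ≠ 0 := by positivity
    obtain ⟨g1, g2, g3, g4⟩ := hg
    refine ⟨?_, ?_, ?_, ?_⟩
    · exact (mul_eq_zero.1 (g1.trans (by ring))).resolve_left hR2
    · exact (mul_eq_zero.1 (g2.trans (by ring))).resolve_left hR2
    · exact (mul_eq_zero.1 (g3.trans (by ring))).resolve_left hR2
    · exact (mul_eq_zero.1 (g4.trans (by ring))).resolve_left hR2
  obtain ⟨K, hK⟩ := hDM.bd
  have hineq : ∀ t ∈ Ioo α β, ∀ q ∈ Ω, |heat ν a (t, q)| + |heat ν b (t, q)| ≤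
      2 * K * (|a (t, q)| + |b (t, q)|
        + |dx a (t, q)| + |dy a (t, q)| + |dx b (t, q)| + |dy b (t, q)|) := by
    intro t _ q hq
    obtain ⟨k1, k2, k3, k4, k5, k6⟩ := hK (t, q)
    exact CN_heat (hDM.ea t q hq) (hDM.eb t q hq) k1 k2 k3 k4 k5 k6
  obtain ⟨r, hr0, hrR, hring⟩ := h.oc.ring
  have hB := hKB R r α β ν (2 * K) a b hr0 hrR h.nu (hDM.ca.of_le (by norm_num))
    (hDM.cb.of_le (by norm_num))
    (fun t ht q hq => ⟨(hDM.bc t q (hfr q hq)).1, (hgrad t ht q hq).1, (hgrad t ht q hq).2.1,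
      (nc t q (hfr q hq)).2.2.1⟩)
    (fun t ht q hq => ⟨(hDM.bc t q (hfr q hq)).2.1, (hgrad t ht q hq).2.2.1,
      (hgrad t ht q hq).2.2.2, (nc t q (hfr q hq)).2.2.2.1⟩)
    (fun t ht q hq => hineq t ht q (hring hq))
  have hO := hKR r R hr0 hrR
  have hY := hYI Ω α β ν (2 * K) a b h.op h.con.isPreconnected h.nu
    ((hDM.ca.of_le (by norm_num)).contDiffOn) ((hDM.cb.of_le (by norm_num)).contDiffOn) hineq
    ⟨Ring r R, hO.2.2.1, hO.2.2.2.2, hring, hB⟩
  obtain ⟨q, hq, hne⟩ := h.nz ((α + β) / 2) (by linarith)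
  exact hne (hY ((α + β) / 2) ⟨by linarith, by linarith⟩ q hq)

end NS
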