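import Pool.Agent.helper42.NS.Spec2

/-!
# Row `nos2:GE2`
-/

set_option autoImplicit false

namespace Pool.Agent.helper42.NS

open Polynomial Matrix

theorem GE2_ncard {α : Type*} [Fintype α] (p : α → Prop) [DecidablePred p] :
    Set.ncard {x | p x} = (Finset.univ.filter p).card := by
  rw [← Set.ncard_coe_finset]
  congr 1
  ext x
  simp

theorem GE2_pi {K : Type*} [AddCommMonoid K] (m k : ℕ) (u : Fin m → K) :
    Set.ncard {B : Fin k → Fin m → Bool | ∀ i, dotb (B i) u = 0} =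
      Set.ncard {b : Fin m → Bool | dotb b u = 0} ^ k := by
  classical
  rw [GE2_ncard, GE2_ncard, ← Fintype.card_piFinset_const]
  congr 1
  ext B
  simp [Fintype.mem_piFinset]

theorem GE2_card (m : ℕ) : (Finset.univ : Finset (Fin 140 → Fin m → Bool)).card =
    2 ^ (m * 140) := by
  rw [Finset.card_univ, Fintype.card_fun, Fintype.card_fun, Fintype.card_fin, Fintype.card_fin,
    Fintype.card_bool, pow_mul]

theorem GE2_big (h3 : FBB_stmt) (h4 : KI2_stmt) {a m : ℕ} (ha : 40 ≤ a) (P : Pt)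
    (H : Matrix (Fin m) (Fin m) ℤ) (hR1 : R1 a H) (hR2 : R2 a H) (hq : 2 ^ a ≤ qP P)
    (hc : crk P H ≤ 81) :
    Set.ncard {B : Fin 140 → Fin m → Bool | Bad P H B} * 2 ^ (60 * (a - 1)) ≤
      2 ^ 140 * 2 ^ (m * 140) := by
  have : P.asIdeal.IsMaximal := P.isMaximal
  let _ : Field (KP P) := Ideal.Quotient.field P.asIdeal
  have h5 := h4 (KP P) m (a - 1) 140 (EigK (KP P) (lamP P) H) (fun u hu hu0 =>
    h3 a m P H u (by omega) hR1 hR2 hq hu hu0)
  have h6 : 60 * (a - 1) ≤ (a - 1) * (140 + 1 - crk P H) := by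
    rw [mul_comm]
    exact Nat.mul_le_mul_left _ (by omega)
  refine le_trans (Nat.mul_le_mul_left _ (Nat.pow_le_pow_right (by norm_num) h6)) ?_
  exact h5

theorem GE2_num {a q : ℕ} (ha : 40 ≤ a) (hq : 2 ≤ q) (hqa : q < 2 ^ a) :
    (1 / (q : ℝ) + 1 / 2 ^ (2 ^ a)) ^ 140 ≤ 2 / (q : ℝ) ^ 140 := by
  have hq0 : (0 : ℝ) < (q : ℝ) := by
    have : (2 : ℝ) ≤ (q : ℝ) := by exact_mod_cast hq
    linarith
  have h1 : a + 8 ≤ 2 ^ a := by
    have h2 : a - 1 < 2 ^ (a - 1) := Nat.lt_two_pow_self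
    have h3 : 2 ^ a = 2 * 2 ^ (a - 1) := by
      rw [← pow_succ']
      congr 1
      omega
    omega
  have h2 : (1 : ℝ) / 2 ^ (2 ^ a) ≤ 1 / 256 * (1 / (q : ℝ)) := by
    have h3 : ((2 : ℝ)) ^ (a + 8) ≤ 2 ^ (2 ^ a) := pow_le_pow_right₀ (by norm_num) h1
    have h4 : (q : ℝ) ≤ 2 ^ a := by exact_mod_cast hqa.le
    have h5 : 256 * (q : ℝ) ≤ 2 ^ (2 ^ a) := by
      refine le_trans ?_ h3
      rw [pow_add]
      norm_num
      linarith
    rw [div_mul_div_comm, one_mul]
    exact one_div_le_one_div_of_le (by positivity) h5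
  have h3 : 1 / (q : ℝ) + 1 / 2 ^ (2 ^ a) ≤ 257 / 256 * (1 / (q : ℝ)) := by linarith
  calc (1 / (q : ℝ) + 1 / 2 ^ (2 ^ a)) ^ 140 ≤ (257 / 256 * (1 / (q : ℝ))) ^ 140 :=
        pow_le_pow_left₀ (by positivity) h3 _
    _ = (257 / 256) ^ 140 * (1 / (q : ℝ) ^ 140) := by rw [mul_pow, _root_.one_div_pow]
    _ ≤ 2 * (1 / (q : ℝ) ^ 140) := by
        apply mul_le_mul_of_nonneg_right _ (by positivity)
        norm_num
    _ = 2 / (q : ℝ) ^ 140 := by ring

theorem GE2_small (h5 : LCA_stmt) (h8 : FIN_stmt) {a m : ℕ} (ha : 40 ≤ a) (P : Pt)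
    (H : Matrix (Fin m) (Fin m) ℤ) (hR2 : R2 a H) (hq : qP P < 2 ^ a)
    (hc : crk P H ≤ 6) : 2 ≤ qP P ∧
    (Set.ncard {B : Fin 140 → Fin m → Bool | Bad P H B} : ℝ) ≤
      2 ^ (m * 140) * (2 / (qP P : ℝ) ^ 134) := by
  classical
  have : P.asIdeal.IsMaximal := P.isMaximal
  let _ : Field (KP P) := Ideal.Quotient.field P.asIdeal
  obtain ⟨hfin, p', hp', hab, -, d, hd, hqp⟩ := h8 P
  have hp2 := hp'.two_le
  have hple : p' ≤ qP P := by
    rw [hqp]
    exact Nat.le_self_pow (by omega) p'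
  have hq2 : 2 ≤ qP P := hp2.trans hple
  refine ⟨hq2, ?_⟩
  have hq0 : (0 : ℝ) < (qP P : ℝ) := by
    have : (2 : ℝ) ≤ (qP P : ℝ) := by exact_mod_cast hq2
    linarith
  set E : Submodule (KP P) (Fin m → KP P) := EigK (KP P) (lamP P) H with hE
  have hfE : Finite E := inferInstance
  let _ : Fintype E := Fintype.ofFinite E
  -- one vector
  have one : ∀ y ∈ E, y ≠ 0 →
      (Set.ncard {B : Fin 140 → Fin m → Bool | ∀ i, dotb (B i) y = 0} : ℝ) ≤
        2 ^ (m * 140) * (2 / (qP P : ℝ) ^ 140) := by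
    intro y hy hy0
    have h1 := h5 a m p' P H (Submodule.span (KP P) {y}) hp' hab
      (lt_of_le_of_lt hple (hq.trans_le (Nat.pow_le_pow_right (by norm_num) (by omega))))
      (by
        refine hq.le.trans ?_
        refine (Nat.pow_le_pow_left hp2 a).trans ?_
        exact Nat.pow_le_pow_right (by omega) (by omega)) hR2
      ((Submodule.span_singleton_le_iff_mem _ _).2 hy)
    have h2 : Module.finrank (KP P) (Submodule.span (KP P) {y}) = 1 := finrank_span_singleton hy0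
    rw [h2, pow_one] at h1
    have h3 : {b : Fin m → Bool | dotb b y = 0} ⊆
        {b : Fin m → Bool | ∀ u ∈ Submodule.span (KP P) {y}, dotb b u = 0} := by
      intro b hb u hu
      obtain ⟨c, rfl⟩ := Submodule.mem_span_singleton.1 hu
      have h4 : dotb b (c • y) = c * dotb b y := by
        unfold dotb
        rw [Finset.mul_sum]
        refine Finset.sum_congr rfl fun j _ => ?_
        split_ifs
        · rfl
        · rw [mul_zero]
      have h5 : dotb b y = 0 := hb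
      rw [h4, h5, mul_zero]
    have h4 : (Set.ncard {b : Fin m → Bool | dotb b y = 0} : ℝ) ≤
        2 ^ m * (1 / (qP P : ℝ) + 1 / 2 ^ (2 ^ a)) :=
      le_trans (by exact_mod_cast Set.ncard_le_ncard h3 (Set.toFinite _)) h1
    rw [GE2_pi]
    push_cast
    calc (Set.ncard {b : Fin m → Bool | dotb b y = 0} : ℝ) ^ 140
        ≤ (2 ^ m * (1 / (qP P : ℝ) + 1 / 2 ^ (2 ^ a))) ^ 140 :=
          pow_le_pow_left₀ (by positivity) h4 _
      _ = 2 ^ (m * 140) * (1 / (qP P : ℝ) + 1 / 2 ^ (2 ^ a)) ^ 140 := by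
          rw [mul_pow, ← pow_mul]
      _ ≤ 2 ^ (m * 140) * (2 / (qP P : ℝ) ^ 140) :=
          mul_le_mul_of_nonneg_left (GE2_num ha hq2 hq) (by positivity)
  -- the union
  have hcardE : Fintype.card E ≤ qP P ^ 6 := by
    rw [← Nat.card_eq_fintype_card, Module.natCard_eq_pow_finrank (K := KP P)]
    have h1 : 0 < Nat.card (KP P) := lt_of_lt_of_le (by norm_num) hq2
    exact Nat.pow_le_pow_right h1 hc
  have hun : (Finset.univ.filter fun B : Fin 140 → Fin m → Bool => Bad P H B) ⊆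
      (Finset.univ.filter fun y : E => y ≠ 0).biUnion fun y =>
        Finset.univ.filter fun B : Fin 140 → Fin m → Bool => ∀ i, dotb (B i) (y : Fin m → KP P) = 0 := by
    intro B hB
    obtain ⟨u, hu, hu0, hB'⟩ := (Finset.mem_filter.1 hB).2
    refine Finset.mem_biUnion.2 ⟨⟨u, hu⟩, Finset.mem_filter.2 ⟨Finset.mem_univ _, ?_⟩,
      Finset.mem_filter.2 ⟨Finset.mem_univ _, hB'⟩⟩
    intro h
    exact hu0 (congrArg Subtype.val h)
  rw [GE2_ncard]
  calc (((Finset.univ.filter fun B : Fin 140 → Fin m → Bool => Bad P H B).card : ℕ) : ℝ)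
      ≤ ((∑ y ∈ Finset.univ.filter (fun y : E => y ≠ 0),
          (Finset.univ.filter fun B : Fin 140 → Fin m → Bool =>
            ∀ i, dotb (B i) (y : Fin m → KP P) = 0).card : ℕ) : ℝ) := by
        exact_mod_cast (Finset.card_le_card hun).trans Finset.card_biUnion_le
    _ = ∑ y ∈ Finset.univ.filter (fun y : E => y ≠ 0),
          (((Finset.univ.filter fun B : Fin 140 → Fin m → Bool =>
            ∀ i, dotb (B i) (y : Fin m → KP P) = 0).card : ℕ) : ℝ) := by push_cast; rfl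
    _ ≤ ∑ y ∈ Finset.univ.filter (fun y : E => y ≠ 0),
          2 ^ (m * 140) * (2 / (qP P : ℝ) ^ 140) := by
        refine Finset.sum_le_sum fun y hy => ?_
        have h1 := one y y.2 (fun h => (Finset.mem_filter.1 hy).2 (Subtype.ext h))
        rwa [GE2_ncard] at h1
    _ = ((Finset.univ.filter (fun y : E => y ≠ 0)).card : ℝ) *
          (2 ^ (m * 140) * (2 / (qP P : ℝ) ^ 140)) := by rw [Finset.sum_const, nsmul_eq_mul]
    _ ≤ (qP P : ℝ) ^ 6 * (2 ^ (m * 140) * (2 / (qP P : ℝ) ^ 140)) := by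
        apply mul_le_mul_of_nonneg_right _ (by positivity)
        have h1 : (Finset.univ.filter (fun y : E => y ≠ 0)).card ≤ qP P ^ 6 :=
          (Finset.card_filter_le _ _).trans (by rw [Finset.card_univ]; exact hcardE)
        exact_mod_cast h1
    _ = 2 ^ (m * 140) * (2 / (qP P : ℝ) ^ 134) := by
        have h1 : (qP P : ℝ) ^ 140 = (qP P : ℝ) ^ 6 * (qP P : ℝ) ^ 134 := by ring
        rw [h1]
        field_simp

theorem GE2_sum (h6 : CNQ_stmt) (s : Finset Pt) (hs : ∀ P ∈ s, 2 ≤ qP P) :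
    ∑ P ∈ s, (2 / (qP P : ℝ) ^ 134) ≤ 1 / 4 := by
  classical
  have e1 := Finset.sum_comp (s := s) (fun q : ℕ => (2 / (q : ℝ) ^ 134)) qP
  rw [e1]
  have him : ∀ q ∈ s.image qP, 2 ≤ q := by
    intro q hq
    obtain ⟨P, hP, rfl⟩ := Finset.mem_image.1 hq
    exact hs P hP
  have e2 : ∀ q ∈ s.image qP, (s.filter fun P => qP P = q).card • (2 / (q : ℝ) ^ 134) ≤
      1 / 4 * ((q : ℝ) ^ 2)⁻¹ := by
    intro q hq
    have h2 := him q hq
    have hq2 : (2 : ℝ) ≤ (q : ℝ) := by exact_mod_cast h2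
    have hq0 : (0 : ℝ) < (q : ℝ) := by linarith
    have h3 := h6 q (s.filter fun P => qP P = q) (by omega)
      (fun P hP => (Finset.mem_filter.1 hP).2)
    have h4 : ((s.filter fun P => qP P = q).card : ℝ) ≤ (q : ℝ) := by exact_mod_cast h3
    have h5 : (8 : ℝ) ≤ (q : ℝ) ^ 131 := by
      calc (8 : ℝ) = 2 ^ 3 := by norm_num
        _ ≤ 2 ^ 131 := pow_le_pow_right₀ (by norm_num) (by norm_num)
        _ ≤ (q : ℝ) ^ 131 := pow_le_pow_left₀ (by norm_num) hq2 _
    rw [nsmul_eq_mul]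
    calc ((s.filter fun P => qP P = q).card : ℝ) * (2 / (q : ℝ) ^ 134)
        ≤ (q : ℝ) * (2 / (q : ℝ) ^ 134) := mul_le_mul_of_nonneg_right h4 (by positivity)
      _ = 2 / (q : ℝ) ^ 131 * ((q : ℝ) ^ 2)⁻¹ := by
          have h6 : (q : ℝ) ^ 134 = (q : ℝ) * ((q : ℝ) ^ 131 * (q : ℝ) ^ 2) := by ring
          rw [h6]
          field_simp
      _ ≤ 1 / 4 * ((q : ℝ) ^ 2)⁻¹ := by
          apply mul_le_mul_of_nonneg_right _ (by positivity)
          rw [div_le_div_iff₀ (by positivity) (by norm_num)]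
          linarith
  refine (Finset.sum_le_sum e2).trans ?_
  rw [← Finset.mul_sum]
  set N : ℕ := (s.image qP).sup id + 1 with hN
  have e3 : s.image qP ⊆ Finset.Ioc 1 N := by
    intro q hq
    rw [Finset.mem_Ioc]
    have h1 := him q hq
    have h2 : q ≤ (s.image qP).sup id := Finset.le_sup (f := id) hq
    omega
  have e4 : ∑ q ∈ s.image qP, ((q : ℝ) ^ 2)⁻¹ ≤ 1 := by
    refine (Finset.sum_le_sum_of_subset_of_nonneg e3 fun q _ _ => by positivity).trans ?_
    refine (sum_Ioc_inv_sq_le_sub (α := ℝ) (by norm_num) (by omega)).trans ?_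
    have : (0 : ℝ) ≤ ((N : ℕ) : ℝ)⁻¹ := by positivity
    push_cast at this ⊢
    linarith
  linarith

theorem GE2 (h1 : EXS_stmt) (h2 : PTQ_stmt) (h3 : FBB_stmt) (h4 : KI2_stmt) (h5 : LCA_stmt)
    (h6 : CNQ_stmt) (h7 : PBH_stmt) (h8 : FIN_stmt) : GE2_stmt := by
  classical
  intro a p H ha hp hpa hG hF
  obtain ⟨-, hR1, hR2, hA, hbig, hsmall⟩ := hF
  obtain ⟨m, hm⟩ : ∃ m : ℕ, m = 2 ^ (10 * a) := ⟨_, rfl⟩
  have hmle : 2 ^ (10 * a) ≤ 2 ^ (10 * a) := le_rfl
  have hmle' : 2 ^ (10 * a) ≤ 2 ^ (10 * a + 3) := Nat.pow_le_pow_right (by norm_num) (by omega)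
  revert H
  rw [← hm] at hmle hmle' ⊢
  intro H hG hR1 hR2 hA hbig hsmall
  have hsym : ∀ i j, H i j = H j i := hG.2.2
  obtain ⟨B₁, hB₁⟩ := h1 a m p H (by omega) hp hpa hsym hR1 (hm ▸ le_rfl) hA
  have h9 := h2 m 36 (10 * a + 3) p H B₁ hp hG hmle' hB₁
  have hSfin : {P : Pt | Bad P H B₁}.Finite := by
    by_contra hinf
    obtain ⟨t, ht1, ht2⟩ := (Set.not_finite.1 hinf).exists_subset_card_eq
      (2 ^ (4 * (10 * a + 3) + 1) + 1)
    have := h9 t (fun P hP => ht1 hP)
    omega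
  set S : Finset Pt := hSfin.toFinset with hS
  have hScard : S.card ≤ 2 ^ (40 * a + 13) := by
    have := h9 S (fun P hP => (Set.Finite.mem_toFinset hSfin).1 hP)
    rwa [show 4 * (10 * a + 3) + 1 = 40 * a + 13 by ring] at this
  -- a good second tuple
  obtain ⟨B₂, hB₂⟩ : ∃ B₂ : Fin 140 → Fin m → Bool, ∀ P ∈ S, ¬ Bad P H B₂ := by
    by_contra hcon
    push Not at hcon
    have hun : (Finset.univ : Finset (Fin 140 → Fin m → Bool)) ⊆
        S.biUnion fun P => Finset.univ.filter fun B => Bad P H B := by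
      intro B _
      obtain ⟨P, hP, hB⟩ := hcon B
      exact Finset.mem_biUnion.2 ⟨P, hP, Finset.mem_filter.2 ⟨Finset.mem_univ _, hB⟩⟩
    have hc1 := (Finset.card_le_card hun).trans Finset.card_biUnion_le
    rw [GE2_card, ← Finset.sum_filter_add_sum_filter_not S (fun P => 2 ^ a ≤ qP P)] at hc1
    obtain ⟨T, hT⟩ : ∃ T : ℕ, T = 2 ^ (m * 140) := ⟨_, rfl⟩
    have hb : 4 * ∑ P ∈ S.filter (fun P => 2 ^ a ≤ qP P),
        (Finset.univ.filter fun B : Fin 140 → Fin m → Bool => Bad P H B).card ≤ T := by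
      have e1 : (∑ P ∈ S.filter (fun P => 2 ^ a ≤ qP P),
          (Finset.univ.filter fun B : Fin 140 → Fin m → Bool => Bad P H B).card) *
          2 ^ (60 * (a - 1)) ≤ 2 ^ (40 * a + 13) * (2 ^ 140 * T) := by
        rw [Finset.sum_mul]
        calc _ ≤ ∑ P ∈ S.filter (fun P => 2 ^ a ≤ qP P), 2 ^ 140 * T := by
              refine Finset.sum_le_sum fun P hP => ?_
              have hq := (Finset.mem_filter.1 hP).2
              have := GE2_big h3 h4 ha P H hR1 hR2 hq (hbig P hq)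
              rw [GE2_ncard, ← hT] at this
              exact this
          _ = (S.filter (fun P => 2 ^ a ≤ qP P)).card * (2 ^ 140 * T) := by
              rw [Finset.sum_const, smul_eq_mul]
          _ ≤ 2 ^ (40 * a + 13) * (2 ^ 140 * T) :=
              Nat.mul_le_mul_right _ ((Finset.card_filter_le _ _).trans hScard)
      have e2 : 2 ^ (40 * a + 155) ≤ 2 ^ (60 * (a - 1)) :=
        Nat.pow_le_pow_right (by norm_num) (by omega)
      have e3 := (Nat.mul_le_mul_left (∑ P ∈ S.filter (fun P => 2 ^ a ≤ qP P),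
          (Finset.univ.filter fun B : Fin 140 → Fin m → Bool => Bad P H B).card) e2).trans e1
      have e4 : 2 ^ (40 * a + 155) = 2 ^ (40 * a + 153) * 4 := by
        rw [show 40 * a + 155 = 40 * a + 153 + 2 by ring, pow_add]
        norm_num
      have e5 : 2 ^ (40 * a + 13) * (2 ^ 140 * T) = 2 ^ (40 * a + 153) * T := by
        rw [show 40 * a + 153 = 40 * a + 13 + 140 by ring, pow_add _ (40 * a + 13) 140]
        ring
      rw [e4, e5] at e3
      have e6 : 0 < 2 ^ (40 * a + 153) := by positivity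
      generalize 2 ^ (40 * a + 153) = W at e3 e6
      generalize (∑ P ∈ S.filter (fun P => 2 ^ a ≤ qP P),
          (Finset.univ.filter fun B : Fin 140 → Fin m → Bool => Bad P H B).card) = Z at e3 ⊢
      have e7 : W * (4 * Z) ≤ W * T := by
        calc W * (4 * Z) = Z * (W * 4) := by ring
          _ ≤ W * T := e3
      exact Nat.le_of_mul_le_mul_left e7 e6
    have hs : (((∑ P ∈ S.filter (fun P => ¬ 2 ^ a ≤ qP P),
        (Finset.univ.filter fun B : Fin 140 → Fin m → Bool => Bad P H B).card : ℕ)) : ℝ) ≤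
        (T : ℝ) * (1 / 4) := by
      have f1 : ∀ P ∈ S.filter (fun P => ¬ 2 ^ a ≤ qP P), 2 ≤ qP P ∧
          (((Finset.univ.filter fun B : Fin 140 → Fin m → Bool => Bad P H B).card : ℕ) : ℝ) ≤
            (T : ℝ) * (2 / (qP P : ℝ) ^ 134) := by
        intro P hP
        have hq := not_le.1 (Finset.mem_filter.1 hP).2
        have h10 := GE2_small h5 h8 ha P H hR2 hq (hsmall P hq)
        rw [GE2_ncard] at h10
        rw [hT]
        push_cast
        exact h10
      push_cast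
      refine (Finset.sum_le_sum fun P hP => (f1 P hP).2).trans ?_
      rw [← Finset.mul_sum]
      exact mul_le_mul_of_nonneg_left (GE2_sum h6 _ fun P hP => (f1 P hP).1) (by positivity)
    rw [← hT] at hc1
    have hT0 : 0 < T := by
      rw [hT]
      positivity
    have hs' : 4 * (∑ P ∈ S.filter (fun P => ¬ 2 ^ a ≤ qP P),
        (Finset.univ.filter fun B : Fin 140 → Fin m → Bool => Bad P H B).card) ≤ T := by
      have : (4 : ℝ) * (((∑ P ∈ S.filter (fun P => ¬ 2 ^ a ≤ qP P),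
        (Finset.univ.filter fun B : Fin 140 → Fin m → Bool => Bad P H B).card : ℕ)) : ℝ) ≤
        (T : ℝ) := by linarith
      exact_mod_cast this
    omega
  -- the result
  have e176 : 36 + 140 = 176 := rfl
  refine ⟨fun i => (Fin.append B₁ B₂ : Fin (36 + 140) → Fin m → Bool) (Fin.cast e176.symm i), ?_⟩
  by_contra hne
  obtain ⟨P, u, hu0, huE, hS⟩ := h7 m H _ hsym hne
  have hd : ∀ b : Fin m → Bool, (∑ j, ((ind b j : ℤ) : KP P) * u j) = dotb b u := by
    intro b
    unfold dotb ind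
    refine Finset.sum_congr rfl fun j _ => ?_
    split_ifs
    · rw [Int.cast_one, one_mul]
    · rw [Int.cast_zero, zero_mul]
  have hB : ∀ i : Fin (36 + 140), dotb ((Fin.append B₁ B₂ : Fin (36 + 140) → Fin m → Bool) i) u = 0 := by
    intro i
    rw [← hd]
    refine hS _ ⟨Fin.cast e176 i, ?_⟩
    simp only [Fin.cast_eq_self]
  have hb1 : Bad P H B₁ := ⟨u, huE, hu0, fun i => by
    have := hB (Fin.castAdd 140 i)
    rwa [Fin.append_left] at this⟩
  have hb2 : Bad P H B₂ := ⟨u, huE, hu0, fun i => by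
    have := hB (Fin.natAdd 36 i)
    rwa [Fin.append_right] at this⟩
  exact hB₂ P ((Set.Finite.mem_toFinset hSfin).2 hb1) hb2

end Pool.Agent.helper42.NS
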