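import Pool.Agent.helper42.NS.Spec2
import Pool.Agent.helper38.NS.CNT

/-!
# Row `nos2:GS`
-/

set_option autoImplicit false

namespace Pool.Agent.helper42.NS

open Polynomial Matrix

theorem GS_total (t : ℕ) : 2 ^ (t.choose 2) ≤
    Set.ncard {H : Matrix (Fin t) (Fin t) ℤ | IsGr H} := by
  induction t with
  | zero =>
    rw [Nat.choose_zero_succ, pow_zero, Nat.one_le_iff_ne_zero, Ne, Set.ncard_eq_zero (CNT_fin 0)]
    intro h
    have h1 : (0 : Matrix (Fin 0) (Fin 0) ℤ) ∈ {H : Matrix (Fin 0) (Fin 0) ℤ | IsGr H} :=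
      ⟨fun i => i.elim0, fun i => i.elim0, fun i => i.elim0⟩
    rw [h] at h1
    exact h1
  | succ t ih =>
    have hch : (t + 1).choose 2 = t.choose 2 + t := by
      rw [Nat.choose_succ_succ' t 1, Nat.choose_one_right, add_comm]
    have h1 : Set.ncard ({H : Matrix (Fin t) (Fin t) ℤ | IsGr H} ×ˢ
        (Set.univ : Set (Fin t → Bool))) ≤
        Set.ncard {H : Matrix (Fin (t + 1)) (Fin (t + 1)) ℤ | IsGr H} := by
      refine Set.ncard_le_ncard_of_injOn (fun p => bord p.1 (ind p.2)) ?_ ?_ (CNT_fin (t + 1))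
      · rintro ⟨H, b⟩ ⟨h1, -⟩
        exact CNT_gr h1 b
      · rintro ⟨H, b⟩ _ ⟨H', b'⟩ _ h
        obtain ⟨e1, e2⟩ := CNT_inj h
        exact Prod.ext e1 e2
    refine le_trans ?_ h1
    rw [Set.ncard_prod, Set.ncard_univ, hch, pow_add]
    have h2 : Nat.card (Fin t → Bool) = 2 ^ t := by simp
    rw [h2]
    exact Nat.mul_le_mul_right _ ih

theorem GS_union {t : ℕ} {A B C : Matrix (Fin t) (Fin t) ℤ → Prop}
    (h : ∀ H, IsGr H → A H → B H ∨ C H) : (cnt t A : ℝ) ≤ cnt t B + cnt t C := by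
  have h2 : {H : Matrix (Fin t) (Fin t) ℤ | IsGr H ∧ A H} ⊆
      {H | IsGr H ∧ B H} ∪ {H | IsGr H ∧ C H} := by
    rintro H ⟨h3, h4⟩
    rcases h H h3 h4 with h5 | h5
    · exact Or.inl ⟨h3, h5⟩
    · exact Or.inr ⟨h3, h5⟩
  have h3 : ({H : Matrix (Fin t) (Fin t) ℤ | IsGr H ∧ B H} ∪ {H | IsGr H ∧ C H}).Finite :=
    ((CNT_fin t).subset fun H h => h.1).union ((CNT_fin t).subset fun H h => h.1)
  have h4 : cnt t A ≤ cnt t B + cnt t C := by
    unfold cnt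
    exact (Set.ncard_le_ncard h2 h3).trans (Set.ncard_union_le _ _)
  exact_mod_cast h4

theorem GS_mono {t : ℕ} {A B : Matrix (Fin t) (Fin t) ℤ → Prop}
    (h : ∀ H, IsGr H → A H → B H) : (cnt t A : ℝ) ≤ cnt t B := by
  have h2 : {H : Matrix (Fin t) (Fin t) ℤ | IsGr H ∧ A H} ⊆ {H | IsGr H ∧ B H} := by
    rintro H ⟨h3, h4⟩
    exact ⟨h3, h H h3 h4⟩
  have h4 : cnt t A ≤ cnt t B :=
    Set.ncard_le_ncard h2 ((CNT_fin t).subset fun H h => h.1)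
  exact_mod_cast h4

/-- A sum of `ε`'s which vanish below a threshold. -/
theorem GS_sum (m : ℕ) (δ : ℝ) (P : ℕ → Prop) [DecidablePred P] (hδ : 0 ≤ δ) :
    ∑ t ∈ Finset.range (m + 1), (if P t then δ else 0) ≤ (m + 1) * δ := by
  calc ∑ t ∈ Finset.range (m + 1), (if P t then δ else 0)
      ≤ ∑ t ∈ Finset.range (m + 1), δ := by
        refine Finset.sum_le_sum fun t _ => ?_
        split_ifs
        · exact le_rfl
        · exact hδ
    _ = (m + 1) * δ := by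
        rw [Finset.sum_const, Finset.card_range, nsmul_eq_mul]
        push_cast
        rfl

/-- The property `R1`, `R2` for large segments. -/
def GS_QB (a : ℕ) (t : ℕ) (H : Matrix (Fin t) (Fin t) ℤ) : Prop :=
  2 ^ (10 * a - 1) ≤ t → R1 a H ∧ (Good (10 * a + 3) H → R2 a H)

/-- The property of stage 1. -/
def GS_QD (a p : ℕ) (t : ℕ) (H : Matrix (Fin t) (Fin t) ℤ) : Prop :=
  3 * 2 ^ (10 * a - 2) ≤ t → Hered (Q1 a) t H → ∀ P : Pt, Above p P → crk P H ≤ 24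

theorem GS_h1 (a : ℕ) : ∀ (t : ℕ) (H : Matrix (Fin t) (Fin t) ℤ),
    Hered (fun _ H => Good (10 * a + 3) H) t H → Hered (GS_QB a) t H → Hered (Q1 a) t H
  | 0, _, h1, h2 => ⟨h1, fun h => ⟨(h2 h).1, (h2 h).2 h1⟩⟩
  | t + 1, H, h1, h2 =>
    ⟨⟨h1.1, fun h => ⟨(h2.1 h).1, (h2.1 h).2 h1.1⟩⟩, GS_h1 a t (tl H) h1.2 h2.2⟩

theorem GS_h2 (a p : ℕ) : ∀ (t : ℕ) (H : Matrix (Fin t) (Fin t) ℤ),
    Hered (Q1 a) t H → Hered (GS_QD a p) t H → Hered (Q2 a p) t H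
  | 0, _, h1, h2 => ⟨h1, fun h => h2 h h1⟩
  | t + 1, H, h1, h2 => ⟨⟨h1.1, fun h => h2.1 h h1⟩, GS_h2 a p t (tl H) h1.2 h2.2⟩

theorem GS_top (Q : ∀ t : ℕ, Matrix (Fin t) (Fin t) ℤ → Prop) : ∀ (t : ℕ)
    (H : Matrix (Fin t) (Fin t) ℤ), Hered Q t H → Q t H
  | 0, _, h => h
  | _ + 1, _, h => h.1

theorem GS (h1 : CRU_stmt) (h2 : HER_stmt) (h3 : R1C_stmt) (h4 : R2C_stmt) (h5 : ST1_stmt)
    (h6 : ST2_stmt) (h7 : ST3_stmt) : GS_stmt := by
  classical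
  intro a p ha hp hpa
  have g1 := h1 (10 * a + 3) (2 ^ (10 * a)) (by omega)
    (Nat.pow_le_pow_right (by norm_num) (by omega))
  have g6 := h6 a p (by omega) hp hpa
  have g7 := h7 a (by omega)
  have hm1 : 2 ^ (10 * a - 1) ≤ 2 ^ (10 * a) := Nat.pow_le_pow_right (by norm_num) (by omega)
  have hm2 : 3 * 2 ^ (10 * a - 2) ≤ 2 ^ (10 * a) := by
    have : 2 ^ (10 * a) = 2 ^ (10 * a - 2) * 2 ^ 2 := by
      rw [← pow_add]
      congr 1
      omega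
    omega
  -- the failure of `GS_QB`
  have g2 := h2 (GS_QB a) (fun t => if 2 ^ (10 * a - 1) ≤ t then 2 / 2 ^ (11 * a) else 0)
    (2 ^ (10 * a)) (by
      intro t ht
      by_cases h : 2 ^ (10 * a - 1) ≤ t
      · simp only [if_pos h]
        have e1 : (cnt t (fun H => ¬ GS_QB a t H) : ℝ) ≤ cnt t (fun H => ¬ R1 a H) +
            cnt t (fun H => Good (10 * a + 3) H ∧ ¬ R2 a H) := by
          refine GS_union fun H _ hH => ?_
          by_contra hcon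
          push Not at hcon
          exact hH fun _ => ⟨hcon.1, fun hg => hcon.2 hg⟩
        have e2 : (cnt t (fun H => ¬ R1 a H) : ℝ) * 2 ^ (11 * a) ≤ 2 ^ (t.choose 2) := by
          exact_mod_cast h3 a t (by omega) h ht
        have e3 : (cnt t (fun H => Good (10 * a + 3) H ∧ ¬ R2 a H) : ℝ) * 2 ^ (11 * a) ≤
            2 ^ (t.choose 2) := by
          exact_mod_cast h4 a t (by omega) h ht
        rw [div_mul_eq_mul_div, le_div_iff₀ (by positivity)]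
        have e4 := mul_le_mul_of_nonneg_right e1 (show (0 : ℝ) ≤ 2 ^ (11 * a) by positivity)
        linarith
      · simp only [if_neg h, zero_mul]
        have e1 : (cnt t (fun H => ¬ GS_QB a t H) : ℝ) ≤ cnt t (fun _ => False) :=
          GS_mono fun H _ hH => hH fun h' => absurd h' h
        have e2 : cnt t (fun _ => False) = 0 := by
          unfold cnt
          simp
        rw [e2] at e1
        simpa using e1)
  have s2 := GS_sum (2 ^ (10 * a)) (2 / 2 ^ (11 * a)) (fun t => 2 ^ (10 * a - 1) ≤ t) (by positivity)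
  -- the failure of `GS_QD`
  have g3 := h2 (GS_QD a p) (fun t => if 3 * 2 ^ (10 * a - 2) ≤ t then 2 ^ 74 / 2 ^ (14 * a) else 0)
    (2 ^ (10 * a)) (by
      intro t ht
      by_cases h : 3 * 2 ^ (10 * a - 2) ≤ t
      · simp only [if_pos h]
        have e1 : (cnt t (fun H => ¬ GS_QD a p t H) : ℝ) ≤
            cnt t (fun H => Hered (Q1 a) t H ∧ ∃ P : Pt, Above p P ∧ 25 ≤ crk P H) := by
          refine GS_mono fun H _ hH => ?_
          unfold GS_QD at hH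
          push Not at hH
          obtain ⟨-, h8, P, h9, h10⟩ := hH
          exact ⟨h8, P, h9, h10⟩
        have e2 : (cnt t (fun H => Hered (Q1 a) t H ∧ ∃ P : Pt, Above p P ∧ 25 ≤ crk P H) : ℝ) *
            2 ^ (14 * a) ≤ 2 ^ 74 * 2 ^ (t.choose 2) := by
          exact_mod_cast h5 a t p (by omega) hp hpa h ht
        rw [div_mul_eq_mul_div, le_div_iff₀ (by positivity)]
        exact (mul_le_mul_of_nonneg_right e1 (by positivity)).trans e2
      · simp only [if_neg h, zero_mul]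
        have e1 : (cnt t (fun H => ¬ GS_QD a p t H) : ℝ) ≤ cnt t (fun _ => False) :=
          GS_mono fun H _ hH => hH fun h' => absurd h' h
        have e2 : cnt t (fun _ => False) = 0 := by
          unfold cnt
          simp
        rw [e2] at e1
        simpa using e1)
  have s3 := GS_sum (2 ^ (10 * a)) (2 ^ 74 / 2 ^ (14 * a)) (fun t => 3 * 2 ^ (10 * a - 2) ≤ t)
    (by positivity)
  have g0 := GS_total (2 ^ (10 * a))
  -- the union
  have key : ∀ H : Matrix (Fin (2 ^ (10 * a))) (Fin (2 ^ (10 * a))) ℤ, IsGr H → ¬ Fine a p H →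
      ¬ Hered (fun _ H => Good (10 * a + 3) H) (2 ^ (10 * a)) H ∨
      ¬ Hered (GS_QB a) (2 ^ (10 * a)) H ∨ ¬ Hered (GS_QD a p) (2 ^ (10 * a)) H ∨
      (Hered (Q2 a p) (2 ^ (10 * a)) H ∧ ∃ P : Pt, 2 ^ a ≤ qP P ∧ 82 ≤ crk P H) ∨
      (Hered (Q1 a) (2 ^ (10 * a)) H ∧ ∃ P : Pt, qP P < 2 ^ a ∧ 7 ≤ crk P H) := by
    intro H hG hF
    by_contra hcon
    push Not at hcon
    obtain ⟨c1, c2, c3, c4, c5⟩ := hcon
    have d1 := GS_h1 a _ H c1 c2
    have d2 := GS_h2 a p _ H d1 c3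
    have d3 := GS_top _ _ H d2
    apply hF
    refine ⟨d3.1.1, (d3.1.2 hm1).1, (d3.1.2 hm1).2, d3.2 hm2, fun P hP => ?_, fun P hP => ?_⟩
    · have := c4 d2 P hP
      omega
    · have := c5 d1 P hP
      omega
  obtain ⟨W, hW⟩ : ∃ W : ℝ, W = 2 ^ ((2 ^ (10 * a)).choose 2) := ⟨_, rfl⟩
  have hW0 : 0 ≤ W := by
    rw [hW]
    positivity
  have u0 : (cnt (2 ^ (10 * a)) (fun _ => True) : ℝ) ≤ cnt (2 ^ (10 * a)) (fun H => Fine a p H) +
      cnt (2 ^ (10 * a)) (fun H => ¬ Fine a p H) := GS_union fun H _ _ => em _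
  have u1 := GS_union (t := 2 ^ (10 * a)) key
  have u2 := GS_union (t := 2 ^ (10 * a)) (A := fun H => ¬ Hered (GS_QB a) (2 ^ (10 * a)) H ∨
      ¬ Hered (GS_QD a p) (2 ^ (10 * a)) H ∨
      (Hered (Q2 a p) (2 ^ (10 * a)) H ∧ ∃ P : Pt, 2 ^ a ≤ qP P ∧ 82 ≤ crk P H) ∨
      (Hered (Q1 a) (2 ^ (10 * a)) H ∧ ∃ P : Pt, qP P < 2 ^ a ∧ 7 ≤ crk P H)) fun H _ h => h
  have u3 := GS_union (t := 2 ^ (10 * a)) (A := fun H => ¬ Hered (GS_QD a p) (2 ^ (10 * a)) H ∨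
      (Hered (Q2 a p) (2 ^ (10 * a)) H ∧ ∃ P : Pt, 2 ^ a ≤ qP P ∧ 82 ≤ crk P H) ∨
      (Hered (Q1 a) (2 ^ (10 * a)) H ∧ ∃ P : Pt, qP P < 2 ^ a ∧ 7 ≤ crk P H)) fun H _ h => h
  have u4 := GS_union (t := 2 ^ (10 * a)) (A := fun H =>
      (Hered (Q2 a p) (2 ^ (10 * a)) H ∧ ∃ P : Pt, 2 ^ a ≤ qP P ∧ 82 ≤ crk P H) ∨
      (Hered (Q1 a) (2 ^ (10 * a)) H ∧ ∃ P : Pt, qP P < 2 ^ a ∧ 7 ≤ crk P H)) fun H _ h => h
  have v0 : W ≤ (cnt (2 ^ (10 * a)) (fun _ => True) : ℝ) := by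
    rw [hW]
    have : cnt (2 ^ (10 * a)) (fun _ => True) =
        Set.ncard {H : Matrix (Fin (2 ^ (10 * a))) (Fin (2 ^ (10 * a))) ℤ | IsGr H} := by
      unfold cnt
      simp only [and_true]
    rw [this]
    exact_mod_cast g0
  have v1 : (cnt (2 ^ (10 * a)) (fun H => ¬ Hered (fun _ H => Good (10 * a + 3) H)
      (2 ^ (10 * a)) H) : ℝ) ≤ 1 / 16 * W := by
    have e1 : (cnt (2 ^ (10 * a)) (fun H => ¬ Hered (fun _ H => Good (10 * a + 3) H)
      (2 ^ (10 * a)) H) : ℝ) * 2 ^ (10 * a + 3 + 1) ≤ 2 ^ (10 * a) * W := by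
      rw [hW]
      exact_mod_cast g1
    have e2 : (2 : ℝ) ^ (10 * a + 3 + 1) = 2 ^ (10 * a) * 16 := by
      rw [add_assoc, pow_add]
      norm_num
    rw [e2] at e1
    have e3 : (0 : ℝ) < 2 ^ (10 * a) := by positivity
    generalize (2 : ℝ) ^ (10 * a) = M at e1 e3
    have e4 : M * ((cnt (2 ^ (10 * a)) (fun H => ¬ Hered (fun _ H => Good (10 * a + 3) H)
      (2 ^ (10 * a)) H) : ℝ) * 16) ≤ M * W := by linarith
    have e5 := le_of_mul_le_mul_left e4 e3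
    linarith
  have hpw : (2 : ℝ) ^ (10 * a) + 1 ≤ 2 ^ (10 * a + 1) := by
    have : (1 : ℝ) ≤ 2 ^ (10 * a) := one_le_pow₀ (by norm_num)
    rw [pow_succ]
    linarith
  have v2 : (cnt (2 ^ (10 * a)) (fun H => ¬ Hered (GS_QB a) (2 ^ (10 * a)) H) : ℝ) ≤
      1 / 100 * W := by
    refine g2.trans ?_
    rw [← hW]
    refine mul_le_mul_of_nonneg_right (s2.trans ?_) hW0
    push_cast
    have e1 : ((2 : ℝ) ^ (10 * a) + 1) * (2 / 2 ^ (11 * a)) ≤
        2 ^ (10 * a + 1) * (2 / 2 ^ (11 * a)) := mul_le_mul_of_nonneg_right hpw (by positivity)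
    refine e1.trans ?_
    rw [mul_div_assoc', div_le_div_iff₀ (by positivity) (by norm_num), one_mul]
    have e2 : (2 : ℝ) ^ (11 * a) = 2 ^ (10 * a + 1) * 2 ^ (a - 1) := by
      rw [← pow_add]
      congr 1
      omega
    rw [e2, mul_assoc]
    refine mul_le_mul_of_nonneg_left ?_ (by positivity)
    calc (2 : ℝ) * 100 ≤ 2 ^ 39 := by norm_num
      _ ≤ 2 ^ (a - 1) := pow_le_pow_right₀ (by norm_num) (by omega)
  have v3 : (cnt (2 ^ (10 * a)) (fun H => ¬ Hered (GS_QD a p) (2 ^ (10 * a)) H) : ℝ) ≤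
      1 / 100 * W := by
    refine g3.trans ?_
    rw [← hW]
    refine mul_le_mul_of_nonneg_right (s3.trans ?_) hW0
    push_cast
    have e1 : ((2 : ℝ) ^ (10 * a) + 1) * (2 ^ 74 / 2 ^ (14 * a)) ≤
        2 ^ (10 * a + 1) * (2 ^ 74 / 2 ^ (14 * a)) := mul_le_mul_of_nonneg_right hpw (by positivity)
    refine e1.trans ?_
    rw [mul_div_assoc', div_le_div_iff₀ (by positivity) (by norm_num), one_mul]
    have e2 : (2 : ℝ) ^ (14 * a) = 2 ^ (10 * a + 1) * 2 ^ (4 * a - 1) := by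
      rw [← pow_add]
      congr 1
      omega
    rw [e2, mul_assoc]
    refine mul_le_mul_of_nonneg_left ?_ (by positivity)
    calc (2 : ℝ) ^ 74 * 100 ≤ 2 ^ 159 := by norm_num
      _ ≤ 2 ^ (4 * a - 1) := pow_le_pow_right₀ (by norm_num) (by omega)
  have v4 : (cnt (2 ^ (10 * a)) (fun H => Hered (Q2 a p) (2 ^ (10 * a)) H ∧
      ∃ P : Pt, 2 ^ a ≤ qP P ∧ 82 ≤ crk P H) : ℝ) ≤ 1 / 100 * W := by
    have e1 : (cnt (2 ^ (10 * a)) (fun H => Hered (Q2 a p) (2 ^ (10 * a)) H ∧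
      ∃ P : Pt, 2 ^ a ≤ qP P ∧ 82 ≤ crk P H) : ℝ) * 2 ^ (5 * a) ≤ 2 ^ 150 * W := by
      rw [hW]
      exact_mod_cast g6
    have e2 : (2 : ℝ) ^ 150 * 100 ≤ 2 ^ (5 * a) :=
      calc (2 : ℝ) ^ 150 * 100 ≤ 2 ^ 200 := by norm_num
        _ ≤ 2 ^ (5 * a) := pow_le_pow_right₀ (by norm_num) (by omega)
    have e3 := (mul_le_mul_of_nonneg_left e2 (Nat.cast_nonneg (α := ℝ) (cnt (2 ^ (10 * a))
      (fun H => Hered (Q2 a p) (2 ^ (10 * a)) H ∧
      ∃ P : Pt, 2 ^ a ≤ qP P ∧ 82 ≤ crk P H)))).trans e1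
    have e4 : (0 : ℝ) < 2 ^ 150 := by positivity
    generalize (2 : ℝ) ^ 150 = M at e3 e4
    generalize (cnt (2 ^ (10 * a)) (fun H => Hered (Q2 a p) (2 ^ (10 * a)) H ∧
      ∃ P : Pt, 2 ^ a ≤ qP P ∧ 82 ≤ crk P H) : ℝ) = Z at e3 ⊢
    have e5 : M * (Z * 100) ≤ M * W := by linarith
    have e6 := le_of_mul_le_mul_left e5 e4
    linarith
  have v5 : (cnt (2 ^ (10 * a)) (fun H => Hered (Q1 a) (2 ^ (10 * a)) H ∧
      ∃ P : Pt, qP P < 2 ^ a ∧ 7 ≤ crk P H) : ℝ) ≤ 9 / 20 * W := by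
    have e1 : (cnt (2 ^ (10 * a)) (fun H => Hered (Q1 a) (2 ^ (10 * a)) H ∧
      ∃ P : Pt, qP P < 2 ^ a ∧ 7 ≤ crk P H) : ℝ) * 20 ≤ 9 * W := by
      rw [hW]
      exact_mod_cast g7
    linarith
  have fin : W ≤ 4 * (cnt (2 ^ (10 * a)) (fun H => Fine a p H) : ℝ) := by linarith
  rw [hW] at fin
  exact_mod_cast fin

end Pool.Agent.helper42.NS
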