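import Pool.Agent.helper42.NS.Spec2
import Pool.Agent.helper38.NS.CNT

/-!
# Row `nos2:ST1`
-/

set_option autoImplicit false

namespace Pool.Agent.helper42.NS

open Polynomial Matrix

/-- The points above `p` with a nonzero eigenspace. -/
def ST1_S (p : ℕ) {t : ℕ} (H : Matrix (Fin t) (Fin t) ℤ) : Set Pt :=
  {P | Above p P ∧ crk P H ≠ 0}

open Classical in
/-- The potential function. -/
noncomputable def ST1_X (D : ℝ) (p t : ℕ) (H : Matrix (Fin t) (Fin t) ℤ) : ℝ :=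
  if h : (ST1_S p H).Finite then ∑ P ∈ h.toFinset, D ^ crk P H else 0

theorem ST1_fin (h3 : PTP_stmt) {p t : ℕ} (hp : p.Prime) (H : Matrix (Fin t) (Fin t) ℤ)
    (hs : ∀ i j, H i j = H j i) : (ST1_S p H).Finite := by
  by_contra hinf
  obtain ⟨s, hs1, hs2⟩ := (Set.not_finite.1 hinf).exists_subset_card_eq (t + 1)
  have := h3 t H p hp hs s (fun P hP => hs1 hP)
  omega

theorem ST1_card (h3 : PTP_stmt) {p t : ℕ} (hp : p.Prime) (H : Matrix (Fin t) (Fin t) ℤ)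
    (hs : ∀ i j, H i j = H j i) : (ST1_fin h3 hp H hs).toFinset.card ≤ t :=
  h3 t H p hp hs _ (fun _ hP => (Set.Finite.mem_toFinset (ST1_fin h3 hp H hs)).1 hP)

theorem ST1_eq (h3 : PTP_stmt) {p t : ℕ} (D : ℝ) (hp : p.Prime) (H : Matrix (Fin t) (Fin t) ℤ)
    (hs : ∀ i j, H i j = H j i) :
    ST1_X D p t H = ∑ P ∈ (ST1_fin h3 hp H hs).toFinset, D ^ crk P H := by
  unfold ST1_X
  rw [dif_pos (ST1_fin h3 hp H hs)]

theorem ST1_nn {D : ℝ} (hD : 0 ≤ D) (p t : ℕ) (H : Matrix (Fin t) (Fin t) ℤ) :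
    0 ≤ ST1_X D p t H := by
  unfold ST1_X
  split_ifs
  · exact Finset.sum_nonneg fun P _ => pow_nonneg hD _
  · exact le_rfl

theorem ST1_top (Q : ∀ t : ℕ, Matrix (Fin t) (Fin t) ℤ → Prop) : ∀ (t : ℕ)
    (H : Matrix (Fin t) (Fin t) ℤ), Hered Q t H → Q t H
  | 0, _, h => h
  | _ + 1, _, h => h.1

theorem ST1_mono {t : ℕ} {A B : Matrix (Fin t) (Fin t) ℤ → Prop}
    (h : ∀ H, IsGr H → A H → B H) : (cnt t A : ℝ) ≤ cnt t B := by
  have h2 : {H : Matrix (Fin t) (Fin t) ℤ | IsGr H ∧ A H} ⊆ {H | IsGr H ∧ B H} := by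
    rintro H ⟨h3, h4⟩
    exact ⟨h3, h H h3 h4⟩
  have h4 : cnt t A ≤ cnt t B :=
    Set.ncard_le_ncard h2 ((CNT_fin t).subset fun H h => h.1)
  exact_mod_cast h4

theorem ST1_num {a : ℕ} (ha : 20 ≤ a) :
    10 * a + (a - 3) * (50 * a + 18) ≤ 2 ^ (10 * a - 2) := by
  have h1 : a < 2 ^ a := Nat.lt_two_pow_self
  have h2 : 10 * a + (a - 3) * (50 * a + 18) ≤ 64 * (a * a) := by
    have h3 : (a - 3) * (50 * a + 18) ≤ a * (50 * a + 18) := Nat.mul_le_mul_right _ (by omega)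
    nlinarith
  have h3 : a * a ≤ 2 ^ a * 2 ^ a := Nat.mul_le_mul h1.le h1.le
  calc 10 * a + (a - 3) * (50 * a + 18) ≤ 64 * (a * a) := h2
    _ ≤ 64 * (2 ^ a * 2 ^ a) := Nat.mul_le_mul_left _ h3
    _ = 2 ^ (6 + (a + a)) := by
        rw [pow_add, pow_add]
        norm_num
    _ ≤ 2 ^ (10 * a - 2) := Nat.pow_le_pow_right (by norm_num) (by omega)

theorem ST1_step (h2 : PSB_stmt) (h3 : PTP_stmt) (h4 : VTX_stmt) (h5 : FIN_stmt)
    {a p t : ℕ} (ha : 20 ≤ a) (hp : p.Prime) (hpa : 2 ^ (3 * a) ≤ p) (ht : t + 1 ≤ 2 ^ (10 * a))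
    (H : Matrix (Fin t) (Fin t) ℤ) (hG : IsGr H) (hR1 : R1 a H) (hR2 : R2 a H)
    (s : Finset (Fin t → Bool)) :
    (∑ b ∈ s, ST1_X ((2 : ℝ) ^ (a - 3)) p (t + 1) (bord H (ind b))) ≤
      2 ^ t * (ST1_X ((2 : ℝ) ^ (a - 3)) p t H / 2 + 2 ^ (10 * a) * (2 : ℝ) ^ (a - 3)) := by
  classical
  have hsym : ∀ i j, H i j = H j i := hG.2.2
  set D : ℝ := (2 : ℝ) ^ (a - 3) with hD
  have hD1 : 1 ≤ D := one_le_pow₀ (by norm_num)
  have hD0 : 0 ≤ D := by linarith
  set S := (ST1_fin h3 hp H hsym).toFinset with hS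
  have hS1 : ∀ P, P ∈ S ↔ Above p P ∧ crk P H ≠ 0 := fun P => Set.Finite.mem_toFinset _
  -- one vector
  have hb : ∀ b : Fin t → Bool, ST1_X D p (t + 1) (bord H (ind b)) ≤
      ∑ P ∈ S, D ^ crk P (bord H (ind b)) + 2 ^ (10 * a) * D := by
    intro b
    have hG' := CNT_gr hG b
    have hsym' : ∀ i j, bord H (ind b) i j = bord H (ind b) j i := hG'.2.2
    rw [ST1_eq h3 D hp _ hsym']
    set S' := (ST1_fin h3 hp (bord H (ind b)) hsym').toFinset with hS'
    have hS1' : ∀ P, P ∈ S' ↔ Above p P ∧ crk P (bord H (ind b)) ≠ 0 :=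
      fun P => Set.Finite.mem_toFinset _
    rw [← Finset.sum_filter_add_sum_filter_not S' (fun P => P ∈ S)]
    refine add_le_add ?_ ?_
    · refine Finset.sum_le_sum_of_subset_of_nonneg ?_ fun P _ _ => pow_nonneg hD0 _
      intro P hP
      exact (Finset.mem_filter.1 hP).2
    · have e1 : ∀ P ∈ S'.filter (fun P => P ∉ S), D ^ crk P (bord H (ind b)) ≤ D := by
        intro P hP
        have hP' := Finset.mem_filter.1 hP
        have hA := ((hS1' P).1 hP'.1).1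
        have h0 : crk P H = 0 := by
          by_contra hne
          exact hP'.2 ((hS1 P).2 ⟨hA, hne⟩)
        have : P.asIdeal.IsMaximal := P.isMaximal
        let _ : Field (KP P) := Ideal.Quotient.field P.asIdeal
        have h1 : crk P (bord H (ind b)) ≤ crk P H + 1 :=
          (h4 (KP P) (lamP P) t H b hsym).1
        calc D ^ crk P (bord H (ind b)) ≤ D ^ 1 := pow_le_pow_right₀ hD1 (by omega)
          _ = D := pow_one D
      refine (Finset.sum_le_sum e1).trans ?_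
      rw [Finset.sum_const, nsmul_eq_mul]
      refine mul_le_mul_of_nonneg_right ?_ hD0
      have e2 : (S'.filter (fun P => P ∉ S)).card ≤ 2 ^ (10 * a) :=
        ((Finset.card_filter_le _ _).trans (ST1_card h3 hp _ hsym')).trans ht
      exact_mod_cast e2
  have hall : (∑ b ∈ s, ST1_X D p (t + 1) (bord H (ind b))) ≤
      ∑ b : Fin t → Bool, ST1_X D p (t + 1) (bord H (ind b)) :=
    Finset.sum_le_sum_of_subset_of_nonneg (Finset.subset_univ _) fun b _ _ => ST1_nn hD0 _ _ _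
  refine hall.trans ((Finset.sum_le_sum fun b _ => hb b).trans ?_)
  rw [Finset.sum_add_distrib, Finset.sum_comm, Finset.sum_const, Finset.card_univ,
    Fintype.card_fun, Fintype.card_fin, Fintype.card_bool, nsmul_eq_mul, mul_add]
  refine add_le_add ?_ ?_
  · rw [ST1_eq h3 D hp H hsym, ← hS]
    have e1 : ∀ P ∈ S, ∑ b : Fin t → Bool, D ^ crk P (bord H (ind b)) ≤
        2 ^ t * (D ^ crk P H / 2) := by
      intro P hP
      obtain ⟨hA, hne⟩ := (hS1 P).1 hP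
      obtain ⟨-, p', hp', -, huniq, d, hd, hq⟩ := h5 P
      have hpp := huniq p hp hA
      have hq2 : 2 ^ a ≤ qP P := by
        rw [hq, ← hpp]
        calc 2 ^ a ≤ 2 ^ (3 * a) := Nat.pow_le_pow_right (by norm_num) (by omega)
          _ ≤ p := hpa
          _ ≤ p ^ d := Nat.le_self_pow (by omega) p
      have h6 := h2 a t P H (by omega) hsym hR1 hR2 hq2 (by omega)
      have h7 : (2 : ℝ) * ∑ b : Fin t → Bool, D ^ crk P (bord H (ind b)) ≤
          2 ^ t * D ^ crk P H := by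
        rw [hD]
        exact_mod_cast h6
      linarith
    calc ∑ P ∈ S, ∑ b : Fin t → Bool, D ^ crk P (bord H (ind b))
        ≤ ∑ P ∈ S, 2 ^ t * (D ^ crk P H / 2) := Finset.sum_le_sum e1
      _ = 2 ^ t * ((∑ P ∈ S, D ^ crk P H) / 2) := by
          rw [← Finset.mul_sum, Finset.sum_div]
  · push_cast
    exact le_rfl

theorem ST1 (h1 : POT_stmt) (h2 : PSB_stmt) (h3 : PTP_stmt) (h4 : VTX_stmt)
    (h5 : FIN_stmt) : ST1_stmt := by
  classical
  intro a t p ha hp hpa ht1 ht2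
  have hpow : 2 ^ (10 * a - 1) = 2 * 2 ^ (10 * a - 2) := by
    rw [← pow_succ']
    congr 1
    omega
  set D : ℝ := (2 : ℝ) ^ (a - 3) with hD
  have hD1 : 1 ≤ D := one_le_pow₀ (by norm_num)
  have hD0 : 0 < D := by linarith
  have key := h1 (Q1 a) (ST1_X D p) (2 ^ (10 * a - 1)) t (2 ^ (10 * a) * D ^ (50 * a + 18))
    (2 ^ (10 * a) * D) (D ^ 25) (by omega) (by positivity) (by positivity) (by positivity)
    (fun t H => ST1_nn hD0.le p t H)
    (by
      intro H hG hH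
      have hQ := ST1_top _ _ _ hH
      rw [ST1_eq h3 D hp H hG.2.2]
      have e1 : ∀ P ∈ (ST1_fin h3 hp H hG.2.2).toFinset, D ^ crk P H ≤ D ^ (50 * a + 18) := by
        intro P _
        have := (hQ.1 P).2
        exact pow_le_pow_right₀ hD1 (by omega)
      refine (Finset.sum_le_sum e1).trans ?_
      rw [Finset.sum_const, nsmul_eq_mul]
      refine mul_le_mul_of_nonneg_right ?_ (by positivity)
      have e2 : (ST1_fin h3 hp H hG.2.2).toFinset.card ≤ 2 ^ (10 * a) :=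
        (ST1_card h3 hp H hG.2.2).trans (Nat.pow_le_pow_right (by norm_num) (by omega))
      exact_mod_cast e2)
    (by
      intro t' ht' ht'' H hG hH s _
      have hQ := (ST1_top _ _ _ hH).2 ht'
      exact ST1_step h2 h3 h4 h5 ha hp hpa (by omega) H hG hQ.1 hQ.2 s)
  have hle : (cnt t (fun H => Hered (Q1 a) t H ∧ ∃ P : Pt, Above p P ∧ 25 ≤ crk P H) : ℝ) ≤
      cnt t (fun H => Hered (Q1 a) t H ∧ D ^ 25 ≤ ST1_X D p t H) := by
    refine ST1_mono ?_
    rintro H hG ⟨hH, P, hA, hP⟩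
    refine ⟨hH, ?_⟩
    rw [ST1_eq h3 D hp H hG.2.2]
    have hm : P ∈ (ST1_fin h3 hp H hG.2.2).toFinset :=
      (Set.Finite.mem_toFinset _).2 ⟨hA, by omega⟩
    refine le_trans ?_ (Finset.single_le_sum (f := fun P => D ^ crk P H)
      (fun P _ => pow_nonneg hD0.le _) hm)
    exact pow_le_pow_right₀ hD1 hP
  obtain ⟨Z, hZ⟩ : ∃ Z : ℝ, Z = (cnt t (fun H => Hered (Q1 a) t H ∧
    ∃ P : Pt, Above p P ∧ 25 ≤ crk P H) : ℝ) := ⟨_, rfl⟩
  obtain ⟨W, hW⟩ : ∃ W : ℝ, W = 2 ^ (t.choose 2) := ⟨_, rfl⟩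
  have hW0 : 0 < W := by
    rw [hW]
    positivity
  have hmain : Z * 2 ^ (14 * a) ≤ 2 ^ 74 * W := by
    have e1 : Z * D ^ 25 ≤ W * (2 ^ (10 * a) * D ^ (50 * a + 18) / 2 ^ (t - 2 ^ (10 * a - 1)) +
        2 * (2 ^ (10 * a) * D)) := by
      rw [hZ, hW]
      exact (mul_le_mul_of_nonneg_right hle (by positivity)).trans key
    have e2 : (2 : ℝ) ^ (10 * a) * D ^ (50 * a + 18) / 2 ^ (t - 2 ^ (10 * a - 1)) ≤ 1 := by
      rw [div_le_one (by positivity), hD, ← pow_mul, ← pow_add]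
      refine pow_le_pow_right₀ (by norm_num) ((ST1_num ha).trans ?_)
      omega
    have e3 : (1 : ℝ) ≤ 2 * (2 ^ (10 * a) * D) := by
      have : (1 : ℝ) ≤ 2 ^ (10 * a) := one_le_pow₀ (by norm_num)
      nlinarith
    have e4 : Z * D ^ 25 ≤ W * (4 * (2 ^ (10 * a) * D)) :=
      e1.trans (mul_le_mul_of_nonneg_left (by linarith) hW0.le)
    have e5 : (Z * D ^ 24) * D ≤ (W * (4 * 2 ^ (10 * a))) * D := by
      calc (Z * D ^ 24) * D = Z * D ^ 25 := by ring
        _ ≤ _ := e4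
        _ = _ := by ring
    have e6 := le_of_mul_le_mul_right e5 hD0
    have e7 : D ^ 24 = 2 ^ (14 * a) * 2 ^ (10 * a - 72) := by
      rw [hD, ← pow_mul, ← pow_add]
      congr 1
      omega
    have e8 : (4 : ℝ) * 2 ^ (10 * a) = 2 ^ 74 * 2 ^ (10 * a - 72) := by
      rw [← pow_add, show (4 : ℝ) = 2 ^ 2 by norm_num, ← pow_add]
      congr 1
      omega
    rw [e7, e8] at e6
    have e9 : (0 : ℝ) < 2 ^ (10 * a - 72) := by positivity
    refine le_of_mul_le_mul_right (a := 2 ^ (10 * a - 72)) ?_ e9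
    calc Z * 2 ^ (14 * a) * 2 ^ (10 * a - 72) = Z * (2 ^ (14 * a) * 2 ^ (10 * a - 72)) := by ring
      _ ≤ _ := e6
      _ = _ := by ring
  rw [hZ, hW] at hmain
  exact_mod_cast hmain

end Pool.Agent.helper42.NS
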